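import Pool.Agent.Q80.KT.Stm

set_option autoImplicit false

open Finset
open scoped Classical

namespace Q254.KT.TRIP

open Pool.Agent.Q80.KT Pool.Agent.Q287.SR

/-- embeddings of the tree given by the parent function -/
noncomputable def emb {n m : ℕ} (v : Fin n) (par : Fin (m + 1) → Fin (m + 1))
    (G : SimpleGraph (Fin n)) : Finset (Fin (m + 1) → Fin n) :=
  univ.filter fun ψ => (Function.Injective ψ ∧ ψ 0 = v) ∧ ∀ t, t ≠ 0 → G.Adj (ψ t) (ψ (par t))

theorem tree_bound (n : ℕ) (p : ℝ) (h0 : 0 ≤ p) (v : Fin n) (m : ℕ)
    (par : Fin (m + 1) → Fin (m + 1)) (hpar : ∀ t, t ≠ 0 → par t < t) :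
    Ex n p (fun G => ((emb v par G).card : ℝ)) ≤ (n * p) ^ m := by
  set S0 : Finset (Fin (m + 1) → Fin n) :=
    univ.filter fun ψ => Function.Injective ψ ∧ ψ 0 = v with hS0
  have hS0card : S0.card ≤ n ^ m := by
    have : S0.card ≤ (univ : Finset (Fin m → Fin n)).card := by
      refine Finset.card_le_card_of_injOn (fun ψ => Fin.tail ψ) (fun _ _ => mem_coe.2 (mem_univ _)) ?_
      intro a ha b hb hab
      have ha' := (mem_filter.1 (mem_coe.1 ha)).2.2
      have hb' := (mem_filter.1 (mem_coe.1 hb)).2.2
      have hab' : Fin.tail a = Fin.tail b := hab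
      rw [← Fin.cons_self_tail a, ← Fin.cons_self_tail b, ha', hb', hab']
    simpa using this
  let D : (Fin (m + 1) → Fin n) → Finset (Sym2 (Fin n)) := fun ψ =>
    (univ.erase (0 : Fin (m + 1))).image fun t => s(ψ t, ψ (par t))
  have hDcard : ∀ ψ ∈ S0, (D ψ).card = m := by
    intro ψ hψ
    have hinj := (mem_filter.1 hψ).2.1
    have : (D ψ).card = (univ.erase (0 : Fin (m + 1))).card := by
      refine Finset.card_image_of_injOn ?_
      intro s hs t ht hst
      have hs' : s ≠ 0 := ne_of_mem_erase (mem_coe.1 hs)
      have ht' : t ≠ 0 := ne_of_mem_erase (mem_coe.1 ht)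
      have h1 := hpar s hs'
      have h2 := hpar t ht'
      rcases Sym2.eq_iff.1 hst with ⟨h, _⟩ | ⟨h, h'⟩
      · exact hinj h
      · have e1 := hinj h
        have e2 := hinj h'
        rw [e2] at h1
        rw [← e1] at h2
        exact absurd (h1.trans h2) (lt_irrefl _)
    rw [this, card_erase_of_mem (mem_univ _)]
    simp
  have hDsub : ∀ ψ ∈ S0, D ψ ⊆ pairs n := by
    intro ψ hψ e he
    have hinj := (mem_filter.1 hψ).2.1
    obtain ⟨t, ht, rfl⟩ := mem_image.1 he
    have ht' : t ≠ 0 := ne_of_mem_erase ht
    simp only [pairs, mem_filter, mem_univ, true_and, Sym2.mk_isDiag_iff]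
    intro h
    have := hinj h
    exact (hpar t ht').ne this.symm
  have hcard : ∀ G : SimpleGraph (Fin n),
      ((emb v par G).card : ℝ) = ∑ ψ ∈ S0, present (D ψ) G := by
    intro G
    have : emb v par G = S0.filter fun ψ => ∀ e ∈ D ψ, e ∈ G.edgeSet := by
      ext ψ
      simp only [emb, hS0, mem_filter, mem_univ, true_and, D, mem_image, mem_erase, ne_eq,
        and_true, forall_exists_index, and_imp]
      constructor
      · rintro ⟨h, h'⟩
        refine ⟨h, ?_⟩
        rintro _ t ht rfl
        exact (SimpleGraph.mem_edgeSet G).2 (h' t ht)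
      · rintro ⟨h, h'⟩
        exact ⟨h, fun t ht => (SimpleGraph.mem_edgeSet G).1 (h' _ t ht rfl)⟩
    rw [this, Finset.card_filter]
    push_cast
    rfl
  have hEx : Ex n p (fun G => ((emb v par G).card : ℝ)) = S0.card * p ^ m := by
    have e1 : (fun G : SimpleGraph (Fin n) => ((emb v par G).card : ℝ)) =
        fun G => ∑ ψ ∈ S0, present (D ψ) G := funext hcard
    rw [e1, Ex_sum]
    rw [Finset.sum_congr rfl (fun ψ hψ => by
      have e2 : Ex n p (fun G => present (D ψ) G) = p ^ (D ψ).card := Ex_present p (hDsub ψ hψ)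
      rw [e2, hDcard ψ hψ])]
    rw [Finset.sum_const, nsmul_eq_mul]
  rw [hEx, mul_pow]
  refine mul_le_mul_of_nonneg_right ?_ (pow_nonneg h0 m)
  exact_mod_cast hS0card

/-- geodesics -/
theorem geo {n : ℕ} (G : SimpleGraph (Fin n)) (v : Fin n) : ∀ (d : ℕ) (w : Fin n),
    G.Reachable v w → G.dist v w = d → ∃ φ : ℕ → Fin n, φ 0 = v ∧ φ d = w ∧
      (∀ t, t < d → G.Adj (φ (t + 1)) (φ t)) ∧ ∀ t, t ≤ d → G.dist v (φ t) = t := by
  intro d
  induction d with
  | zero =>
    intro w hr hd
    have : v = w := by
      rcases SimpleGraph.dist_eq_zero_iff_eq_or_not_reachable.1 hd with h | h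
      · exact h
      · exact absurd hr h
    subst this
    exact ⟨fun _ => v, rfl, rfl, fun t ht => absurd ht (Nat.not_lt_zero t), fun t ht => by
      obtain rfl : t = 0 := by omega
      simp⟩
  | succ d ih =>
    intro w hr hd
    obtain ⟨q, hq⟩ := hr.symm.exists_walk_length_eq_dist
    rw [SimpleGraph.dist_comm, hd] at hq
    cases q with
    | nil => simp at hq
    | @cons _ x _ hadj q =>
      have hlen : q.length = d := by simpa using hq
      have hrx : G.Reachable v x := q.reachable.symm
      have h1 : G.dist v x ≤ d := by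
        rw [SimpleGraph.dist_comm, ← hlen]
        exact SimpleGraph.dist_le q
      have h2 : d ≤ G.dist v x := by
        obtain ⟨q2, hq2⟩ := hrx.exists_walk_length_eq_dist
        have := SimpleGraph.dist_le (q2.concat hadj.symm)
        rw [SimpleGraph.Walk.length_concat, hd, hq2] at this
        omega
      obtain ⟨φ, p0, p1, p2, p3⟩ := ih x hrx (le_antisymm h1 h2)
      refine ⟨fun t => if t ≤ d then φ t else w, by simp [p0], by simp, ?_, ?_⟩
      · intro t ht
        by_cases htd : t + 1 ≤ d
        · simp only [htd, if_true, (by omega : t ≤ d)]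
          exact p2 t (by omega)
        · obtain rfl : t = d := by omega
          simp only [htd, if_false, le_refl, if_true, p1]
          exact hadj
      · intro t ht
        by_cases htd : t ≤ d
        · simp only [htd, if_true]
          exact p3 t htd
        · obtain rfl : t = d + 1 := by omega
          simp only [htd, if_false]
          exact hd

/-- the parent function of the tripod -/
def tpar (i j l : ℕ) : Fin (i + (j - l) + 1) → Fin (i + (j - l) + 1) := fun t =>
  if (t : ℕ) = i + 1 then ⟨min l i, by omega⟩ else ⟨t - 1, by omega⟩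

/-- the second end -/
def tend (i j l : ℕ) : Fin (i + (j - l) + 1) :=
  if l = j then ⟨min i j, by omega⟩ else ⟨i + (j - l), by omega⟩

theorem tpar_lt (i j l : ℕ) : ∀ t, t ≠ 0 → tpar i j l t < t := by
  intro t ht
  have ht' : (t : ℕ) ≠ 0 := fun h => ht (Fin.ext (by simpa using h))
  unfold tpar
  rw [Fin.lt_def]
  split_ifs with h
  · simp only
    omega
  · simp only
    omega

theorem cover {n : ℕ} (G : SimpleGraph (Fin n)) (v : Fin n) (i j : ℕ) :
    (sph G v i) ×ˢ (sph G v j) ⊆ (range (min i j + 1)).biUnion fun l =>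
      (emb v (tpar i j l) G).image fun ψ => (ψ ⟨i, by omega⟩, ψ (tend i j l)) := by
  rintro ⟨y, z⟩ hyz
  obtain ⟨hy, hz⟩ := mem_product.1 hyz
  simp only [sph, mem_filter, mem_univ, true_and] at hy hz
  obtain ⟨a, a0, a1, a2, a3⟩ := geo G v i y hy.1 hy.2
  obtain ⟨b, b0, b1, b2, b3⟩ := geo G v j z hz.1 hz.2
  -- last time of agreement
  set L := (range (min i j + 1)).filter fun t => a t = b t with hL
  have hLne : L.Nonempty := ⟨0, by
    rw [hL, mem_filter, mem_range]
    exact ⟨by omega, by rw [a0, b0]⟩⟩
  set l := L.max' hLne with hl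
  have hlL : l ∈ L := Finset.max'_mem _ _
  have hl1 : l ≤ min i j := by
    have := (mem_filter.1 hlL).1
    rw [mem_range] at this
    omega
  have hl2 : a l = b l := (mem_filter.1 hlL).2
  have hl3 : ∀ s, l < s → s ≤ min i j → a s ≠ b s := by
    intro s hs hs' hab
    have : s ∈ L := by
      rw [hL, mem_filter, mem_range]
      exact ⟨by omega, hab⟩
    have := Finset.le_max' L s this
    omega
  have hli : l ≤ i := hl1.trans (min_le_left _ _)
  have hlj : l ≤ j := hl1.trans (min_le_right _ _)
  rw [mem_biUnion]
  refine ⟨l, by rw [mem_range]; omega, ?_⟩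
  rw [mem_image]
  refine ⟨fun t => if (t : ℕ) ≤ i then a t else b (t - i + l), ?_, ?_⟩
  · simp only [emb, mem_filter, mem_univ, true_and]
    have hdist : ∀ t : Fin (i + (j - l) + 1), G.dist v (if (t : ℕ) ≤ i then a t else b (t - i + l)) =
        if (t : ℕ) ≤ i then (t : ℕ) else t - i + l := by
      intro t
      have := t.2
      split_ifs with h
      · exact a3 _ h
      · exact b3 _ (by omega)
    refine ⟨⟨?_, ?_⟩, ?_⟩
    · intro s t hst
      have hst' : (if (s : ℕ) ≤ i then a s else b (s - i + l)) =
          (if (t : ℕ) ≤ i then a t else b (t - i + l)) := hst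
      have h1 := hdist s
      have h2 := hdist t
      rw [hst', h2] at h1
      have hs2 := s.2
      have ht2 := t.2
      apply Fin.ext
      by_cases hs : (s : ℕ) ≤ i <;> by_cases ht : (t : ℕ) ≤ i
      · simp only [hs, ht, if_true] at h1
        exact h1.symm
      · simp only [hs, ht, if_true, if_false] at h1 hst'
        exfalso
        refine hl3 s (by omega) (by omega) ?_
        rw [hst']
        congr 1
      · simp only [hs, ht, if_true, if_false] at h1 hst'
        exfalso
        refine hl3 t (by omega) (by omega) ?_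
        rw [← hst']
        congr 1
        omega
      · simp only [hs, ht, if_false] at h1
        omega
    · simp [a0]
    · intro t ht
      have ht' : (t : ℕ) ≠ 0 := fun h => ht (Fin.ext (by simpa using h))
      have ht2 := t.2
      by_cases h1 : (t : ℕ) = i + 1
      · have e1 : tpar i j l t = ⟨min l i, by omega⟩ := by
          unfold tpar
          rw [if_pos h1]
        rw [e1]
        have e2 : min l i = l := by omega
        simp only [h1, e2, hli, if_true]
        rw [if_neg (by omega)]
        have e3 : i + 1 - i + l = l + 1 := by omega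
        rw [e3, hl2]
        exact b2 l (by omega)
      · have e1 : tpar i j l t = ⟨t - 1, by omega⟩ := by
          unfold tpar
          rw [if_neg h1]
        rw [e1]
        by_cases h2 : (t : ℕ) ≤ i
        · simp only [h2, if_true, (by omega : (t : ℕ) - 1 ≤ i)]
          have := a2 (t - 1) (by omega)
          rwa [Nat.sub_add_cancel (by omega)] at this
        · simp only [h2, if_false]
          rw [if_neg (by omega)]
          have := b2 (t - 1 - i + l) (by omega)
          have e3 : (t : ℕ) - 1 - i + l + 1 = t - i + l := by omega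
          rwa [e3] at this
  · simp only [le_refl, if_true, a1, Prod.mk.injEq, true_and]
    unfold tend
    split_ifs with h1 h2 h2
    · simp only
      have e : min i j = j := by omega
      rw [e, ← b1, ← h1, hl2]
    · simp only at h2
      omega
    · simp only at h2
      omega
    · simp only
      rw [← b1]
      congr 1
      omega

theorem t_TRIP : S_TRIP := by
  intro n p v i j h0 h1 hnp
  have hnp0 : 0 ≤ (n : ℝ) * p := by positivity
  have hG : ∀ G : SimpleGraph (Fin n), ((sph G v i).card : ℝ) * (sph G v j).card ≤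
      ∑ l ∈ range (min i j + 1), ((emb v (tpar i j l) G).card : ℝ) := by
    intro G
    have h2 := Finset.card_le_card (cover G v i j)
    rw [card_product] at h2
    have h3 := h2.trans (Finset.card_biUnion_le.trans (Finset.sum_le_sum fun l _ => card_image_le))
    exact_mod_cast h3
  calc Ex n p (fun G => ((sph G v i).card : ℝ) * (sph G v j).card)
      ≤ Ex n p (fun G => ∑ l ∈ range (min i j + 1), ((emb v (tpar i j l) G).card : ℝ)) :=
        Ex_mono h0 h1 hG
    _ = ∑ l ∈ range (min i j + 1), Ex n p (fun G => ((emb v (tpar i j l) G).card : ℝ)) := by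
        rw [Ex_sum]
    _ ≤ ∑ l ∈ range (min i j + 1), (2 : ℝ) ^ (i + j) := by
        refine Finset.sum_le_sum fun l _ => ?_
        refine (tree_bound n p h0 v _ _ (tpar_lt i j l)).trans ?_
        calc ((n : ℝ) * p) ^ (i + (j - l)) ≤ 2 ^ (i + (j - l)) := pow_le_pow_left₀ hnp0 hnp _
          _ ≤ 2 ^ (i + j) := pow_le_pow_right₀ (by norm_num) (by omega)
    _ = ((min i j : ℕ) + 1 : ℝ) * 2 ^ (i + j) := by
        rw [Finset.sum_const, card_range, nsmul_eq_mul]
        push_cast
        ring
    _ ≤ (i + j + 1) * 2 ^ (i + j) := by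
        refine mul_le_mul_of_nonneg_right ?_ (by positivity)
        have : ((min i j : ℕ) : ℝ) ≤ (i : ℝ) + j := by
          have : min i j ≤ i + j := by omega
          exact_mod_cast this
        linarith

end Q254.KT.TRIP

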